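import Pool.Agent.W_4481e3_q87.GoR
import Pool.Agent.W_4481e3_tab.T9

/-!
Tree s03o9, data 4.
-/

namespace Pool.Agent.W_4481e3_rt.s03o9

open Pool.Agent.W_4481e3_q25.EvR

theorem k77 : ckO Pool.Agent.W_4481e3_tab.T9.tab 4372160 6498560 16777216 8388608 11862016 14483456 5 524288 524288 3670016 524288 516985384 524076737 1954878 1873972 268413938 268454391 16777216 16777216 14628291 14628291 0x103000c03000c03000c1203000c03000c03000c203000c04000c2121 = true := by decide +kernel

theorem k82 : ckO Pool.Agent.W_4481e3_tab.T9.tab 4372160 6498560 16777216 8388608 11862016 14483456 15 524288 524288 3670016 524288 511768002 529698652 3586130 7172260 268435456 268435456 16777216 16777216 14628291 14628291 0x102000c02000c02000c03000c21203000c03000c103000c03000c05029c205070c05070c21203000c03000c04000c1203000c03000c05000c04000c05000c05000c121204000c04000c106000c06000c1212105070c05070c05070c2105070c05070c05070c212006000c06000c206000c06000c06000c2107000c07000c07000c212106000cbb1207000cb1b21251282a117a621712103000c04000c204000c04000c05070c2104000c04000c204000c04000c05070c105000c06000c12104000c04000cb12bb21212104000c04000c204000c04000c2bb2b1b2104000c04000c2bb2121205070c05070c05070c1205029c05070c106000cbb212106000c06000c206000cb21bb12bb21281de678c04705029cb2bb21b2b1b21bb1b2b121280dda7a6037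 = true := by decide +kernel

theorem k84 : ckO Pool.Agent.W_4481e3_tab.T9.tab 4372160 6498560 16777216 8388608 11862016 14483456 5 524288 524288 3670016 524288 515354132 515354132 7172260 7172260 268435456 268435456 16777216 16777216 14628291 14628291 0x102000c02000c02000c1202000c02000c03000c202000c03000c2121 = true := by decide +kernel

theorem k87 : ckO Pool.Agent.W_4481e3_tab.T9.tab 4372160 6498560 16777216 8388608 11862016 14483456 5 524288 524288 3670016 524288 522526392 493837352 14344520 14344520 268435456 268435456 16777216 16777216 14628291 14628291 0x100000c00000c01000c201000c02000c21201003c01029c01007c121 = true := by decide +kernel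

theorem k89 : ckO Pool.Agent.W_4481e3_tab.T9.tab 4372160 6498560 16777216 8388608 11862016 14483456 8 524288 524288 3670016 524288 493837352 508181872 14344520 28689040 268435456 268435456 16777216 16777216 14628291 14628291 0x100000c00000c00000c00000c00000c02000c12100000c00000c200000c00000c202000c02000c2102000c02000c203000c04000c2121212 = true := by decide +kernel

end Pool.Agent.W_4481e3_rt.s03o9
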